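import Pool.Agent.KS6_21.S.Disc

/-!
# Integer invariants of a sail: infinite families of counterexamples

The definitions (cones, sails, cells, integer area, distance, length and angle, invariant preserving
homeomorphisms, equivalence) are in `Pool.Agent.H476R2.SailDefs`; `RatEquivalent` is in
`Pool.Agent.KS6_21.S.Disc`.
-/

set_option autoImplicit false

namespace Pool.Agent.Results.MP_97563e_nt.InfiniteFamilies

open Pool.Agent.H476R2 Pool.Agent.KS6_21.S Pool.Agent.KS6_21.S.Par

/-- The three planes of `F` are invariant planes of an integer matrix with characteristic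
polynomial `X ^ 3 - a X ^ 2 + b X - 1`. -/
def HasPolynomial (F : Planes) (a b : ℤ) : Prop :=
  ∃ A : Matrix (Fin 3) (Fin 3) ℤ,
    A.charpoly = Polynomial.X ^ 3 - Polynomial.C a * Polynomial.X ^ 2 +
      Polynomial.C b * Polynomial.X - 1 ∧
    ∀ i, ∃ μ : ℝ, ∀ x, F.form i ((A.map (Int.cast : ℤ → ℝ)).mulVec x) = μ * F.form i x

/-- All faces of the sail have integer area `1` and integer distance `1` or `d` to the origin, and
both distances occur. -/
def TwoDistances (F : Planes) (s : Fin 3 → ℤˣ) (d : ℕ) : Prop :=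
  (∀ G, IsCell (hull F s) 2 G → (∀ n, HasIntegerArea G n ↔ n = 1) ∧
    ((∀ n, HasIntegerDistance G n ↔ n = 1) ∨ ∀ n, HasIntegerDistance G n ↔ n = d)) ∧
  (∃ G, IsCell (hull F s) 2 G ∧ ∀ n, HasIntegerDistance G n ↔ n = 1) ∧
  ∃ G, IsCell (hull F s) 2 G ∧ ∀ n, HasIntegerDistance G n ↔ n = d

lemma isCubic {p : Par} (R : Rts p) : IsCubic R.sys.planes :=
  ⟨p.B.1, p.B.2, p.irreducible_B, fun i => ⟨R.be i, fun x => R.LB i x⟩⟩

lemma hasPolynomial {p : Par} (R : Rts p) : HasPolynomial R.sys.planes p.s p.t := by
  refine ⟨p.B.1, ?_, fun i => ⟨R.be i, fun x => R.LB i x⟩⟩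
  rw [charpoly_B]
  simp only [map_neg, map_one]
  ring

lemma twoDistances {p : Par} (R : Rts p) : TwoDistances R.sys.planes 1 p.d := by
  have face : ∀ G, IsCell (hull R.sys.planes 1) 2 G ↔ ∃ i, G = R.sys.data.tri i := by
    intro G
    rw [R.sys.hull_eq, R.sys.data.isCell_iff]
    constructor
    · rintro ⟨i, J, hJ, rfl⟩
      have hJu : J = Finset.univ := by
        apply Finset.eq_univ_of_card
        rw [hJ]
        simp
      subst hJu
      exact ⟨i, R.sys.data.simp_univ i⟩
    · rintro ⟨i, rfl⟩
      exact ⟨i, Finset.univ, by simp, (R.sys.data.simp_univ i).symm⟩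
  refine ⟨?_, ?_, ?_⟩
  · intro G hG
    obtain ⟨⟨g, τ⟩, rfl⟩ := (face G).mp hG
    refine ⟨fun n => R.sys.latData.area_iff _ n, ?_⟩
    cases τ
    · left
      exact fun n => R.sys.latData.distance_iff _ n
    · right
      exact fun n => R.sys.latData.distance_iff _ n
  · exact ⟨_, (face _).mpr ⟨(0, false), rfl⟩, fun n => R.sys.latData.distance_iff _ n⟩
  · exact ⟨_, (face _).mpr ⟨(0, true), rfl⟩, fun n => R.sys.latData.distance_iff _ n⟩

/-- For all positive integers `3 ≤ m ≤ x < d` with `d ^ 2 + x ^ 2 = m d x + 1` (for instance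
`x = m`, `d = m ^ 2 - 1` for every `m ≥ 3`, and further consecutive terms of the recurrence
`x_{n+1} = m x_n - x_{n-1}`, `x_0 = 0`, `x_1 = 1`) there are two-dimensional continued fractions
`F`, `F'` of cubic irrationalities, attached to the polynomials `X ^ 3 - (d + 4) X ^ 2 + (d + 3) X - 1`
and `X ^ 3 - (m d - x + m + 1) X ^ 2 + (d + m + 1) X - 1`, and sails of them related by a
homeomorphism which carries faces to faces, edges to edges and vertices to vertices and preserves
integer areas and distances of faces, integer lengths of edges and integer angles of adjacent edges,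
although `F` and `F'` are not equivalent. All faces of these sails have integer area `1` and integer
distance `1` or `d`, and both occur. If `x = m` and `m` is not congruent to `2` modulo `3`, then
there is not even a matrix in `GL(3, ℚ)` which carries the planes of `F` onto the planes of `F'`. -/
theorem result : ∀ m x d : ℕ, 3 ≤ m → m ≤ x → x < d → d ^ 2 + x ^ 2 = m * d * x + 1 →
    ∃ (F F' : Planes) (s s' : Fin 3 → ℤˣ) (φ : sail F s ≃ₜ sail F' s'),
      IsCubic F ∧ IsCubic F' ∧ HasPolynomial F (d + 4) (d + 3) ∧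
      HasPolynomial F' (m * d - x + m + 1) (d + m + 1) ∧
      InvariantPreserving F s F' s' φ ∧ TwoDistances F s d ∧ TwoDistances F' s' d ∧
      ¬ Equivalent F F' ∧ (x = m → m % 3 ≠ 2 → ¬ RatEquivalent F F') := by
  intro m x d hm hmx hxd hrel
  let p : Par := ⟨m, x, d, by omega, hmx, hxd, hrel⟩
  have hd : 3 ≤ d := by omega
  let q : Par := base d hd
  obtain ⟨R⟩ := p.exists_rts
  obtain ⟨R'⟩ := q.exists_rts
  obtain ⟨φ, hφ⟩ := Sys.exists_homeo R'.sys R.sys rfl
  refine ⟨R'.sys.planes, R.sys.planes, 1, 1, φ, isCubic R', isCubic R, ?_, hasPolynomial R, hφ,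
    twoDistances R', twoDistances R, not_equivalent p hm hd R R', ?_⟩
  · have h := hasPolynomial R'
    have e : ((d - 1 : ℕ) : ℤ) = (d : ℤ) - 1 := by
      rw [Nat.cast_sub (by omega)]
      simp
    have e1 : q.s = (d : ℤ) + 4 := by
      simp only [q, base, Par.s, Par.r, e, Nat.cast_ofNat]
      ring
    have e2 : q.t = (d : ℤ) + 3 := by
      simp only [q, base, Par.t, Nat.cast_ofNat]
      ring
    rw [e1, e2] at h
    exact h
  · intro hx hmod
    exact not_ratEquivalent p hx hmod hd R R'

end Pool.Agent.Results.MP_97563e_nt.InfiniteFamilies
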